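import Pool.Agent.R967.Per.Cont
import Pool.Agent.R967.Per.Top
import Pool.Agent.Y977.LGF.Fast
import Pool.Agent.Y995.LG.Uni
import Pool.Agent.Results.MP_fe58d8_pr.ArcContent

/-!
# Minkowski content of the outer perimeter of the largest critical percolation cluster

Critical bond percolation on `ℤ²` in the box `Λ_n = {0, …, n}²`: `F` is the set of open edges,
uniformly distributed on the subsets of `edges n`, and `Largest n F v` says that the cluster of `v`
has the largest Euclidean diameter (`Pool/Agent/H342R2/Per/Plain.lean`). The closed lattice path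
around this cluster, which traces the boundary of the unbounded component of its complement, is
divided by `n` and run at constant speed on `[0, 1]`, and `T` is its number of steps divided by
`n ^ (7/4)` (`IsNatural n F v (f, T)` below). We consider the law of the pair `(f, T)` in
`X = C([0, 1], ℂ) × ℝ`; `H342L.lawOf n f` is the law of `f F`.

The result: these laws are relatively compact, and for every subsequential limit, almost surely:
`T > 0`, and for all `s < t` the area of the `ρ`-neighbourhood of the arc `f [s, t]` is, for all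
small `ρ`, at least `c T (t - s) ρ ^ (1/4)`, and at most `C T (t - s) ρ ^ (1/4)` if the arc is in
the open square; the constants `c, C > 0` are universal. In other words the `7/4`-dimensional lower
Minkowski content of every arc (in particular of the whole perimeter) is positive, and the natural
time of an arc in the open square is comparable with its lower and upper Minkowski contents.

Other definitions: `Pool/Agent/H342R3/Lim/{Defs,Law}.lean` (`pt`, `lawOf`),
`Pool/Agent/H342R3/Tig/Defs.lean` (`poly`), `Pool/Agent/H984R3/Per/Defs.lean` (states of the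
lattice path, `face`, `orb`), `Pool/Agent/H984R4/NP/Model.lean` (`X`).

The proof uses the result `ArcContent` of `MP_fe58d8_pr` on the exploration paths of rectangles, the
arcs and the dimension of the double times of the result `NaturalPerimeter` of this folder: the
neighbourhoods of disjoint arcs are nearly disjoint since the double times have measure zero.
-/

set_option autoImplicit false

namespace Pool.Agent.Results.MP_6bd702_pr.ArcContent

open H342P.Plain H342L H984P H984N MeasureTheory Filter Topology
open scoped ENNReal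

/-- `p = (f, T)`: `f` is the closed lattice path which traces the boundary of the unbounded
component of the complement of the cluster of `v`, divided by `n` and with constant speed on
`[0, 1]`, and `T` is its number of steps divided by `n ^ (7/4)`. The path starts at a vertex `σ.1` of
the cluster with the face `face σ` of the unbounded component on its left; at each step it follows
the next edge (in clockwise order) if this edge is open, and turns clockwise around the vertex
otherwise, until it comes back to the initial state for the first time. -/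
def IsNatural (n : ℕ) (F : Finset Edge) (v : ℤ × ℤ) (p : X) : Prop :=
  ∃ (σ : St) (N : ℕ), 0 < N ∧ σ.1 ∈ cluster F v ∧ Outer F v (face σ) ∧
    orb (↑F) σ N = σ ∧ (∀ j, 0 < j → j < N → orb (↑F) σ j ≠ σ) ∧
    p = (H342T.poly (fun j => pt n (orb (↑F) σ j).1) N, (N : ℝ) / (n : ℝ) ^ (7/4 : ℝ))

/-- The open unit square. -/
def openSquare : Set ℂ := {z | 0 < z.re ∧ z.re < 1 ∧ 0 < z.im ∧ z.im < 1}

/-- The area of the `ρ`-neighbourhood of the arc `f [s, t]`. -/
noncomputable def area (f : C(unitInterval, ℂ)) (s t : unitInterval) (ρ : ℝ) : ℝ :=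
  (volume (Metric.thickening ρ (f '' Set.Icc s t))).toReal

theorem result : ∃ c C : ℝ, 0 < c ∧ 0 < C ∧
    ∀ (sel : (n : ℕ) → Finset Edge → ℤ × ℤ) (f : (n : ℕ) → Finset Edge → X),
      (∀ n F, 0 < n → F ⊆ edges n → Largest n F (sel n F)) →
      (∀ n F, 0 < n → F ⊆ edges n → IsNatural n F (sel n F) (f n F)) →
      (∀ k : ℕ → ℕ, Tendsto k atTop atTop → ∃ (φ : ℕ → ℕ) (μ : ProbabilityMeasure X),
        StrictMono φ ∧ Tendsto (fun i => lawOf (k (φ i)) (f (k (φ i)))) atTop (𝓝 μ)) ∧
      ∀ (k : ℕ → ℕ), Tendsto k atTop atTop → ∀ μ : ProbabilityMeasure X,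
        Tendsto (fun i => lawOf (k i) (f (k i))) atTop (𝓝 μ) →
        ∀ᵐ p ∂(μ : Measure X), 0 < p.2 ∧ ∀ s t : unitInterval, s < t →
          (∀ᶠ ρ : ℝ in 𝓝[>] 0, c * (p.2 * ((t : ℝ) - s)) * ρ ^ (1/4 : ℝ) ≤ area p.1 s t ρ) ∧
          ((∀ u ∈ Set.Icc s t, p.1 u ∈ openSquare) →
            ∀ᶠ ρ : ℝ in 𝓝[>] 0, area p.1 s t ρ ≤ C * (p.2 * ((t : ℝ) - s)) * ρ ^ (1/4 : ℝ)) := by
  obtain ⟨c, C, hc, hC, h⟩ := Pool.Agent.Results.MP_fe58d8_pr.ArcContent.result
  obtain ⟨_, _, _, _, _, _, _, _, _, _, _, htop⟩ := Pool.Agent.Y995.LG.top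
    (Pool.Agent.Y995.LG.uni Pool.Agent.Y995.LG.arc Pool.Agent.Y995.LG.cov)
    (Pool.Agent.Y977.LG.fast Pool.Agent.Y995.LG.arc Pool.Agent.Y995.LG.cov)
  refine ⟨c / 2, 2 * C, by positivity, by positivity, fun sel f h1 h2 => ?_⟩
  have hsel : Pool.Agent.Y995.LG.Sel sel f := ⟨h1, h2⟩
  refine ⟨fun k hk => Pool.Agent.Y995.LG.tight0 sel f hsel k hk, fun k hk μ hμ => ?_⟩
  have htr := Pool.Agent.R967.Per.top_gen
    (G := {q : X | 0 < q.2 ∧ ∀ s t : unitInterval, s < t → Pool.Agent.R967.Per.Good q.1 q.2 c C s t})
    (fun q hq => hq.1) (fun R δ hδ hlim ν hν => by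
      filter_upwards [(h R).2 δ hδ hlim ν hν] with q hq
      refine ⟨hq.1, fun s t hst => ?_⟩
      have hst' : (s : ℝ) < t := hst
      have hpos : 0 < q.2 * ((t : ℝ) - s) := mul_pos hq.1 (by linarith)
      have hlog : Tendsto (fun ρ : ℝ => C * ρ ^ (7/4 : ℝ) * Real.log (1 / ρ)) (𝓝[>] 0) (𝓝 0) := by
        have h3 := (tendsto_log_mul_rpow_nhdsGT_zero (show (0 : ℝ) < 7/4 by norm_num)).const_mul (-C)
        rw [mul_zero] at h3
        refine h3.congr fun ρ => ?_
        rw [one_div, Real.log_inv]
        ring
      filter_upwards [hq.2.1, hlog.eventually (ge_mem_nhds hpos)] with ρ hρ hρ'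
      exact hρ s t hst.le hρ') hsel hk hμ
  filter_upwards [htr, htop sel f hsel k hk μ hμ] with p hp hp'
  obtain ⟨h0, hT, hv, hl⟩ := hp
  obtain ⟨-, -, -, -, -, huni, hdbl, -⟩ := hp'
  have hloc : Pool.Agent.R967.Per.HLoc p c C := by
    intro t0 ht0
    obtain ⟨q, hq, z, A, B, lam, r, hnb, haff⟩ := Pool.Agent.R967.Per.aff_of h0
      (fun q hq => hq.1) hl t0 ht0
    exact ⟨A, B, hnb, fun s hs t ht hst => Pool.Agent.R967.Per.good_aff haff hq.2 hs ht hst⟩
  have hnull := Pool.Agent.R967.Per.null_double huni (by
    rw [hdbl]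
    refine ENNReal.div_lt_of_lt_mul' ?_
    norm_num)
  refine ⟨hT, fun s t hst => ⟨?_, fun hs => ?_⟩⟩
  · exact Pool.Agent.R967.Per.lower_arc hc hC hT hloc hnull hv hst
  · exact Pool.Agent.R967.Per.upper_arc hC hT hloc hst hs

end Pool.Agent.Results.MP_6bd702_pr.ArcContent
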