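import Pool.Agent.R967.Per.Fix
import Pool.Agent.Y977.LGF.Fast
import Pool.Agent.Y995.LG.Uni

/-!
# The outer perimeter of the largest critical percolation cluster and fixed sets

Critical bond percolation on `ℤ²` in the box `Λ_n = {0, …, n}²`: `F` is the set of open edges,
uniformly distributed on the subsets of `edges n`, and `Largest n F v` says that the cluster of `v`
has the largest Euclidean diameter (`Pool/Agent/H342R2/Per/Plain.lean`). The closed lattice path
around this cluster, which traces the boundary of the unbounded component of its complement, is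
divided by `n` and run at constant speed on `[0, 1]`, and `T` is its number of steps divided by
`n ^ (7/4)` (`IsNatural n F v (f, T)` below). We consider the law of the pair `(f, T)` in
`X = C([0, 1], ℂ) × ℝ`; `H342L.lawOf n f` is the law of `f F`.

The result: these laws are relatively compact, and for every subsequential limit and every fixed
subset `S` of the open square (no measurability is assumed), almost surely: the intersection of the
perimeter with `S` has dimension at most `dim S - 1/4`, the set of times at which the curve is in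
`S` has dimension at most `(4/7) (dim S - 1/4)`, and the curve does not meet `S` if
`dim S < 1/4`. (Differences in `[0, ∞]` are truncated at `0`.)

Other definitions: `Pool/Agent/H342R3/Lim/{Defs,Law}.lean` (`pt`, `lawOf`),
`Pool/Agent/H342R3/Tig/Defs.lean` (`poly`), `Pool/Agent/H984R3/Per/Defs.lean` (states of the
lattice path, `face`, `orb`), `Pool/Agent/H984R4/NP/Model.lean` (`X`).

The proof transfers the result `FixedSets` of `MP_fe58d8_pr` on exploration paths of rectangles, by
means of arcs as in the result `NaturalPerimeter` of this folder (here with properties which depend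
on the rectangle).
-/

set_option autoImplicit false

namespace Pool.Agent.Results.MP_6bd702_pr.ArcFixedSets

open H342P.Plain H342L H984P H984N MeasureTheory Filter Topology
open scoped ENNReal

/-- `p = (f, T)`: `f` is the closed lattice path which traces the boundary of the unbounded
component of the complement of the cluster of `v`, divided by `n` and with constant speed on
`[0, 1]`, and `T` is its number of steps divided by `n ^ (7/4)`. The path starts at a vertex `σ.1` of
the cluster with the face `face σ` of the unbounded component on its left; at each step it follows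
the next edge (in clockwise order) if this edge is open, and turns clockwise around the vertex
otherwise, until it comes back to the initial state for the first time. -/
def IsNatural (n : ℕ) (F : Finset Edge) (v : ℤ × ℤ) (p : X) : Prop :=
  ∃ (σ : St) (N : ℕ), 0 < N ∧ σ.1 ∈ cluster F v ∧ Outer F v (face σ) ∧
    orb (↑F) σ N = σ ∧ (∀ j, 0 < j → j < N → orb (↑F) σ j ≠ σ) ∧
    p = (H342T.poly (fun j => pt n (orb (↑F) σ j).1) N, (N : ℝ) / (n : ℝ) ^ (7/4 : ℝ))

/-- The open unit square. -/
def openSquare : Set ℂ := {z | 0 < z.re ∧ z.re < 1 ∧ 0 < z.im ∧ z.im < 1}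

theorem result
    (sel : (n : ℕ) → Finset Edge → ℤ × ℤ) (f : (n : ℕ) → Finset Edge → X)
    (h1 : ∀ n F, 0 < n → F ⊆ edges n → Largest n F (sel n F))
    (h2 : ∀ n F, 0 < n → F ⊆ edges n → IsNatural n F (sel n F) (f n F)) :
    (∀ k : ℕ → ℕ, Tendsto k atTop atTop → ∃ (φ : ℕ → ℕ) (μ : ProbabilityMeasure X),
      StrictMono φ ∧ Tendsto (fun i => lawOf (k (φ i)) (f (k (φ i)))) atTop (𝓝 μ)) ∧
    ∀ (k : ℕ → ℕ), Tendsto k atTop atTop → ∀ μ : ProbabilityMeasure X,
      Tendsto (fun i => lawOf (k i) (f (k i))) atTop (𝓝 μ) →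
      ∀ S : Set ℂ, S ⊆ openSquare → ∀ᵐ p ∂(μ : Measure X),
        dimH (Set.range p.1 ∩ S) ≤ dimH S - 1 / 4 ∧
        dimH {t : unitInterval | p.1 t ∈ S} ≤ 4 / 7 * (dimH S - 1 / 4) ∧
        (dimH S < 1 / 4 → ∀ t : unitInterval, p.1 t ∉ S) := by
  obtain ⟨_, _, _, _, _, _, _, _, _, _, _, htop⟩ := Pool.Agent.Y995.LG.top
    (Pool.Agent.Y995.LG.uni Pool.Agent.Y995.LG.arc Pool.Agent.Y995.LG.cov)
    (Pool.Agent.Y977.LG.fast Pool.Agent.Y995.LG.arc Pool.Agent.Y995.LG.cov)
  have hsel : Pool.Agent.Y995.LG.Sel sel f := ⟨h1, h2⟩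
  refine ⟨fun k hk => Pool.Agent.Y995.LG.tight0 sel f hsel k hk, fun k hk μ hμ S hS => ?_⟩
  filter_upwards [Pool.Agent.R967.Per.fix_top hsel hk hμ (S := S) hS, htop sel f hsel k hk μ hμ]
    with p hp hp'
  obtain ⟨-, -, -, -, -, huni, -⟩ := hp'
  refine ⟨?_, hp.1, hp.2⟩
  have h3 := huni {t : unitInterval | p.1 t ∈ S} (fun t ht => hS ht)
  have h4 : p.1 '' {t : unitInterval | p.1 t ∈ S} = Set.range p.1 ∩ S := by
    ext z
    constructor
    · rintro ⟨t, ht, rfl⟩
      exact ⟨⟨t, rfl⟩, ht⟩
    · rintro ⟨⟨t, rfl⟩, ht⟩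
      exact ⟨t, ht, rfl⟩
  rw [h4] at h3
  rw [h3]
  have e2 : (7 / 4 : ℝ≥0∞) * (4 / 7) = 1 := by
    have a1 : (4 / 7 : ℝ≥0∞) = ENNReal.ofReal (4 / 7) := by
      rw [ENNReal.ofReal_div_of_pos (by norm_num)]; norm_num
    have a2 : (7 / 4 : ℝ≥0∞) = ENNReal.ofReal (7 / 4) := by
      rw [ENNReal.ofReal_div_of_pos (by norm_num)]; norm_num
    rw [a1, a2, ← ENNReal.ofReal_mul (by norm_num)]
    norm_num
  calc 7 / 4 * dimH {t : unitInterval | p.1 t ∈ S} ≤ 7 / 4 * (4 / 7 * (dimH S - 1 / 4)) := by
        gcongr
        exact hp.1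
    _ = dimH S - 1 / 4 := by rw [← mul_assoc, e2, one_mul]

end Pool.Agent.Results.MP_6bd702_pr.ArcFixedSets
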