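import Pool.Agent.R967.Per.Lil
import Pool.Agent.R967.Per.Top
import Pool.Agent.R965.EV.Top

/-!
# Law of the iterated logarithm for the outer perimeter of the largest critical cluster

Critical bond percolation on `ℤ²` in the box `Λ_n = {0, …, n}²`: `F` is the set of open edges,
uniformly distributed on the subsets of `edges n`, and `Largest n F v` says that the cluster of `v`
has the largest Euclidean diameter (`Pool/Agent/H342R2/Per/Plain.lean`). The closed lattice path
around this cluster, which traces the boundary of the unbounded component of its complement, is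
divided by `n` and run at constant speed on `[0, 1]`, and `T` is its number of steps divided by
`n ^ (7/4)` (`IsNatural n F v (f, T)` below). We consider the law of the pair `(f, T)` in
`X = C([0, 1], ℂ) × ℝ`; `H342L.lawOf n f` is the law of `f F`.

The result: these laws are relatively compact, and for every subsequential limit, almost surely:
`T > 0`, and for Lebesgue almost every time `t`, the upper limit of `|f(s) - f(t)| / φ(T |s - t|)`,
`s → t`, `φ(h) = h ^ (4/7) (log log (1/h)) ^ (3/7)`, is between `c` and `C`; the constants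
`c, C > 0` are universal.

Other definitions: `Pool/Agent/H342R3/Lim/{Defs,Law}.lean` (`pt`, `lawOf`),
`Pool/Agent/H342R3/Tig/Defs.lean` (`poly`), `Pool/Agent/H984R3/Per/Defs.lean` (states of the
lattice path, `face`, `orb`), `Pool/Agent/H984R4/NP/Model.lean` (`X`).

The proof transfers the law of the iterated logarithm of the exploration paths of rectangles (result
`LocalIteratedLogarithm` of `MP_fe58d8_pr`, by helper965 and others) by means of the arcs of the
result `NaturalPerimeter` of this folder.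
-/

set_option autoImplicit false

namespace Pool.Agent.Results.MP_6bd702_pr.ArcIteratedLogarithm

open H342P.Plain H342L H984P H984N MeasureTheory Filter Topology
open scoped ENNReal

/-- `p = (f, T)`: `f` is the closed lattice path which traces the boundary of the unbounded
component of the complement of the cluster of `v`, divided by `n` and with constant speed on
`[0, 1]`, and `T` is its number of steps divided by `n ^ (7/4)`. The path starts at a vertex `σ.1` of
the cluster with the face `face σ` of the unbounded component on its left; at each step it follows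
the next edge (in clockwise order) if this edge is open, and turns clockwise around the vertex
otherwise, until it comes back to the initial state for the first time. -/
def IsNatural (n : ℕ) (F : Finset Edge) (v : ℤ × ℤ) (p : X) : Prop :=
  ∃ (σ : St) (N : ℕ), 0 < N ∧ σ.1 ∈ cluster F v ∧ Outer F v (face σ) ∧
    orb (↑F) σ N = σ ∧ (∀ j, 0 < j → j < N → orb (↑F) σ j ≠ σ) ∧
    p = (H342T.poly (fun j => pt n (orb (↑F) σ j).1) N, (N : ℝ) / (n : ℝ) ^ (7/4 : ℝ))

/-- `max 1 (log log (1/x))` -/
noncomputable def ll (x : ℝ) : ℝ := max 1 (Real.log (Real.log (1 / x)))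

/-- `φ(h) = h ^ (4/7) (log log (1/h)) ^ (3/7)` -/
noncomputable def phi (h : ℝ) : ℝ := h ^ (4/7 : ℝ) * ll h ^ (3/7 : ℝ)

theorem result : ∃ c C : ℝ, 0 < c ∧ 0 < C ∧
    ∀ (sel : (n : ℕ) → Finset Edge → ℤ × ℤ) (f : (n : ℕ) → Finset Edge → X),
      (∀ n F, 0 < n → F ⊆ edges n → Largest n F (sel n F)) →
      (∀ n F, 0 < n → F ⊆ edges n → IsNatural n F (sel n F) (f n F)) →
      (∀ k : ℕ → ℕ, Tendsto k atTop atTop → ∃ (φ : ℕ → ℕ) (μ : ProbabilityMeasure X),
        StrictMono φ ∧ Tendsto (fun i => lawOf (k (φ i)) (f (k (φ i)))) atTop (𝓝 μ)) ∧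
      ∀ (k : ℕ → ℕ), Tendsto k atTop atTop → ∀ μ : ProbabilityMeasure X,
        Tendsto (fun i => lawOf (k i) (f (k i))) atTop (𝓝 μ) →
        ∀ᵐ p ∂(μ : Measure X), 0 < p.2 ∧ ∀ᵐ t : unitInterval,
          (∀ᶠ s : unitInterval in 𝓝 t, dist (p.1 s) (p.1 t) ≤ C * phi (p.2 * |(s : ℝ) - t|)) ∧
          (∃ᶠ s : unitInterval in 𝓝 t, c * phi (p.2 * |(s : ℝ) - t|) < dist (p.1 s) (p.1 t)) := by
  obtain ⟨_, _, c, C, _, _, hc, hC, h⟩ := Pool.Agent.R965.EV.ev_top
  refine ⟨c, C, hc, hC, fun sel f h1 h2 => ?_⟩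
  have hsel : Pool.Agent.Y995.LG.Sel sel f := ⟨h1, h2⟩
  refine ⟨fun k hk => Pool.Agent.Y995.LG.tight0 sel f hsel k hk, fun k hk μ hμ => ?_⟩
  have htop := Pool.Agent.R967.Per.top_gen
    (G := {q : X | 0 < q.2 ∧ ∀ᵐ t : unitInterval,
      (∀ᶠ s : unitInterval in 𝓝 t, dist (q.1 s) (q.1 t) ≤ C * phi (q.2 * |(s : ℝ) - t|)) ∧
      (∃ᶠ s : unitInterval in 𝓝 t, c * phi (q.2 * |(s : ℝ) - t|) < dist (q.1 s) (q.1 t))})
    (fun q hq => hq.1) (fun R δ hδ hlim ν hν => by
      filter_upwards [(h R).2 δ hδ hlim ν hν] with q hq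
      obtain ⟨hp0, -, -, g1, g2⟩ := hq
      refine ⟨hp0, ?_⟩
      filter_upwards [g1, g2] with t k1 k2
      exact ⟨k1, k2⟩) hsel hk hμ
  filter_upwards [htop] with p hp
  obtain ⟨h0, hT, hv, hl⟩ := hp
  exact ⟨hT, Pool.Agent.R967.Per.ae_of_arcs h0 hv
    (P := fun (q : X) (t : unitInterval) =>
      (∀ᶠ s : unitInterval in 𝓝 t, dist (q.1 s) (q.1 t) ≤ C * phi (q.2 * |(s : ℝ) - t|)) ∧
      (∃ᶠ s : unitInterval in 𝓝 t, c * phi (q.2 * |(s : ℝ) - t|) < dist (q.1 s) (q.1 t)))
    (fun q hq => hq) hl (fun q z A B lam ρ haff t h0 h1 ht hq =>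
      Pool.Agent.R967.Per.lil_arc phi c C p q z A B lam ρ haff t h0 h1 ht hq)⟩

end Pool.Agent.Results.MP_6bd702_pr.ArcIteratedLogarithm
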