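import Pool.Agent.R967.Per.Var
import Pool.Agent.R967.Per.Top

/-!
# Exact variation of the outer perimeter of the largest critical percolation cluster

Critical bond percolation on `ℤ²` in the box `Λ_n = {0, …, n}²`: `F` is the set of open edges,
uniformly distributed on the subsets of `edges n`, and `Largest n F v` says that the cluster of `v`
has the largest Euclidean diameter (`Pool/Agent/H342R2/Per/Plain.lean`). The closed lattice path
around this cluster, which traces the boundary of the unbounded component of its complement, is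
divided by `n` and run at constant speed on `[0, 1]`, and `T` is its number of steps divided by
`n ^ (7/4)` (`IsNatural n F v (f, T)` below). We consider the law of the pair `(f, T)` in
`X = C([0, 1], ℂ) × ℝ`; `H342L.lawOf n f` is the law of `f F`.

The result: these laws are relatively compact, and for every subsequential limit, almost surely:
`T > 0`, and the `ψ`-variation of `f`, `ψ(x) = x ^ (7/4) / (log log (1/x)) ^ (3/4)`, on every time
interval `[s, t]` during which the curve stays in the open square is between `c T (t - s)` and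
`C T (t - s)`, with universal constants `c, C > 0`; the lower bound holds on all time intervals.

Other definitions: `Pool/Agent/H342R3/Lim/{Defs,Law}.lean` (`pt`, `lawOf`),
`Pool/Agent/H342R3/Tig/Defs.lean` (`poly`), `Pool/Agent/H984R3/Per/Defs.lean` (states of the
lattice path, `face`, `orb`), `Pool/Agent/H984R4/NP/Model.lean` (`X`).

The proof transfers the exact variation of the exploration paths of rectangles (result
`ExactVariation` of `MP_fe58d8_pr`, by helper965 and others) by means of the arcs of the result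
`NaturalPerimeter` of this folder.
-/

set_option autoImplicit false

namespace Pool.Agent.Results.MP_6bd702_pr.ArcVariation

open H342P.Plain H342L H984P H984N MeasureTheory Filter Topology
open scoped ENNReal

/-- `p = (f, T)`: `f` is the closed lattice path which traces the boundary of the unbounded
component of the complement of the cluster of `v`, divided by `n` and with constant speed on
`[0, 1]`, and `T` is its number of steps divided by `n ^ (7/4)`. The path starts at a vertex `σ.1` of
the cluster with the face `face σ` of the unbounded component on its left; at each step it follows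
the next edge (in clockwise order) if this edge is open, and turns clockwise around the vertex
otherwise, until it comes back to the initial state for the first time. -/
def IsNatural (n : ℕ) (F : Finset Edge) (v : ℤ × ℤ) (p : X) : Prop :=
  ∃ (σ : St) (N : ℕ), 0 < N ∧ σ.1 ∈ cluster F v ∧ Outer F v (face σ) ∧
    orb (↑F) σ N = σ ∧ (∀ j, 0 < j → j < N → orb (↑F) σ j ≠ σ) ∧
    p = (H342T.poly (fun j => pt n (orb (↑F) σ j).1) N, (N : ℝ) / (n : ℝ) ^ (7/4 : ℝ))

/-- `max 1 (log log (1/x))` -/
noncomputable def ll (x : ℝ) : ℝ := max 1 (Real.log (Real.log (1 / x)))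

/-- `ψ(x) = x ^ (7/4) / (log log (1/x)) ^ (3/4)` -/
noncomputable def psi (x : ℝ) : ℝ := x ^ (7/4 : ℝ) / ll x ^ (3/4 : ℝ)

/-- The `ψ`-variation of the curve `f` on `[s, t]`: the limit (infimum), as `η → 0`, of the
supremum of the sums `∑ ψ(|f(τ_i) - f(τ_(i+1))|)` over the partitions
`s = τ_0 ≤ τ_1 ≤ … ≤ τ_m = t` of mesh at most `η`. -/
noncomputable def psiVariation (f : C(unitInterval, ℂ)) (s t : unitInterval) : ℝ≥0∞ :=
  ⨅ η : ℝ, ⨅ _ : 0 < η, ⨆ m : ℕ, ⨆ τ : ℕ → unitInterval,
    ⨆ _ : Monotone τ ∧ τ 0 = s ∧ τ m = t ∧ ∀ i < m, (τ (i + 1) : ℝ) - τ i ≤ η,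
    ENNReal.ofReal (∑ i ∈ Finset.range m, psi (dist (f (τ i)) (f (τ (i + 1)))))

/-- The open unit square. -/
def openSquare : Set ℂ := {z | 0 < z.re ∧ z.re < 1 ∧ 0 < z.im ∧ z.im < 1}

theorem result : ∃ c C : ℝ, 0 < c ∧ 0 < C ∧
    ∀ (sel : (n : ℕ) → Finset Edge → ℤ × ℤ) (f : (n : ℕ) → Finset Edge → X),
      (∀ n F, 0 < n → F ⊆ edges n → Largest n F (sel n F)) →
      (∀ n F, 0 < n → F ⊆ edges n → IsNatural n F (sel n F) (f n F)) →
      (∀ k : ℕ → ℕ, Tendsto k atTop atTop → ∃ (φ : ℕ → ℕ) (μ : ProbabilityMeasure X),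
        StrictMono φ ∧ Tendsto (fun i => lawOf (k (φ i)) (f (k (φ i)))) atTop (𝓝 μ)) ∧
      ∀ (k : ℕ → ℕ), Tendsto k atTop atTop → ∀ μ : ProbabilityMeasure X,
        Tendsto (fun i => lawOf (k i) (f (k i))) atTop (𝓝 μ) →
        ∀ᵐ p ∂(μ : Measure X), 0 < p.2 ∧ ∀ s t : unitInterval, s ≤ t →
          ENNReal.ofReal (c * (p.2 * ((t : ℝ) - s))) ≤ psiVariation p.1 s t ∧
          ((∀ u ∈ Set.Icc s t, p.1 u ∈ openSquare) →
            psiVariation p.1 s t ≤ ENNReal.ofReal (C * (p.2 * ((t : ℝ) - s)))) := by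
  obtain ⟨c, C, _, _, hc, hC, _, _, h⟩ := Pool.Agent.R965.EV.ev_top
  refine ⟨c, C, hc, hC, fun sel f h1 h2 => ?_⟩
  have hsel : Pool.Agent.Y995.LG.Sel sel f := ⟨h1, h2⟩
  refine ⟨fun k hk => Pool.Agent.Y995.LG.tight0 sel f hsel k hk, fun k hk μ hμ => ?_⟩
  have htop := Pool.Agent.R967.Per.top_gen
    (G := {q : X | 0 < q.2 ∧ Pool.Agent.Y41.EV.UPF q.1 q.2 C ∧ Pool.Agent.Y41.EV.LOF q.1 q.2 c})
    (fun q hq => hq.1) (fun R δ hδ hlim ν hν => by
      filter_upwards [(h R).2 δ hδ hlim ν hν] with q hq
      exact ⟨hq.1, hq.2.1, hq.2.2.1⟩) hsel hk hμ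
  filter_upwards [htop] with p hp
  obtain ⟨h0, hT, hv, hl⟩ := hp
  have hL := Pool.Agent.R967.Per.lof h0 hT hc (fun q hq => ⟨hq.1, hq.2.2⟩) hl hv
  refine ⟨hT, fun s t hst => ⟨?_, fun hs => ?_⟩⟩
  · rw [← mul_assoc]
    exact Pool.Agent.R965.EV.le_Vpsi hL hst
  · rw [← mul_assoc]
    exact Pool.Agent.R967.Per.Vpsi_le' hT hC hst (Pool.Agent.R967.Per.upk h0
      (fun q hq => ⟨hq.1, hq.2.1⟩) hl isCompact_Icc hs)

end Pool.Agent.Results.MP_6bd702_pr.ArcVariation
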